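import Mathlib

open Matrix

namespace Pool.Agent.Results.MP_541c26_co.LoopedCycles

/-- The looped cycle on `n` vertices, as a set of edges and loops. -/
def loopedCycle (n : ℕ) : Set (Sym2 (Fin n)) :=
  {e | ∃ i j : Fin n, e = s(i, j) ∧ (i = j ∨ j.1 = (i.1 + 1) % n)}

/-- `A` is a completion of the partial matrix `m`. -/
def IsCompletion {n : ℕ} {E : Set (Sym2 (Fin n))} (m : E → ℝ) (A : Matrix (Fin n) (Fin n) ℝ) : Prop :=
  A.IsSymm ∧ ∀ (i j : Fin n) (h : s(i, j) ∈ E), A i j = m ⟨s(i, j), h⟩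

/-- the least rank of a completion -/
noncomputable def minCompletionRank {n : ℕ} {E : Set (Sym2 (Fin n))} (m : E → ℝ) : ℕ :=
  sInf {r | ∃ A : Matrix (Fin n) (Fin n) ℝ, IsCompletion m A ∧ A.rank = r}

/-- `r` is a typical rank -/
def IsTypicalRank {n : ℕ} (E : Set (Sym2 (Fin n))) (r : ℕ) : Prop :=
  (interior {m : E → ℝ | minCompletionRank m = r}).Nonempty

theorem root' (κ d F R : ℝ) (hR : R ≠ 0) (h : R ^ 2 - F * R + κ * d = 0) : ∃ r s : ℝ, s * r = d ∧ r + κ * s = F := by
  refine ⟨R, d / R, div_mul_cancel₀ _ hR, ?_⟩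
  have h1 : κ * (d / R) = F - R := by
    rw [mul_div_assoc', div_eq_iff hR]
    linarith
  linarith

theorem root (κ d F : ℝ) (hF : F ≠ 0) (h : 4 * (κ * d) ≤ F ^ 2) : ∃ r s : ℝ, s * r = d ∧ r + κ * s = F := by
  have hs : 0 ≤ F ^ 2 - 4 * (κ * d) := by linarith
  obtain ⟨q, hq0, hq⟩ : ∃ q : ℝ, 0 ≤ q ∧ q ^ 2 = F ^ 2 - 4 * (κ * d) := ⟨_, Real.sqrt_nonneg _, Real.sq_sqrt hs⟩
  rcases lt_or_gt_of_ne hF with hlt | hgt
  · refine root' κ d F ((F - q) / 2) ?_ ?_
    · have : (F - q) / 2 < 0 := by linarith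
      exact this.ne
    · linarith
  · refine root' κ d F ((F + q) / 2) ?_ ?_
    · have : 0 < (F + q) / 2 := by linarith
      exact this.ne'
    · linarith

/-- the scalar problem -/
theorem scalar (n : ℕ) (hn : 4 ≤ n) (a b : ℕ → ℝ) : ∃ x y : ℕ → ℝ,
    (y 1 + a 0 / 2 * x 1 = b 0) ∧ (y (n - 1) + a 0 / 2 * x (n - 1) = b (n - 1)) ∧
    ∀ i, 1 ≤ i → i + 1 < n → (x (i + 1) - x i) * (y (i + 1) - y i) = (a i + a (i + 1)) / 2 - b i := by
  set κ := a 0 / 2 with hκ
  set D := b (n - 1) - b 0 with hD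
  set d : ℕ → ℝ := fun i => (a i + a (i + 1)) / 2 - b i with hd
  set K : ℝ := 1 + ∑ j ∈ Finset.range n, |4 * (κ * d j)| with hK
  have hKj : ∀ j < n, 4 * (κ * d j) ≤ K := by
    intro j hj
    have h1 := Finset.single_le_sum (f := fun j => |4 * (κ * d j)|) (fun i _ => abs_nonneg _) (Finset.mem_range.2 hj)
    have h2 := le_abs_self (4 * (κ * d j))
    linarith
  have hK1 : 1 ≤ K := by
    have : 0 ≤ ∑ j ∈ Finset.range n, |4 * (κ * d j)| := Finset.sum_nonneg (fun i _ => abs_nonneg _)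
    linarith
  set L : ℝ := K + |D| with hL
  set F : ℕ → ℝ := fun j => if j = 1 then D - (n - 3 : ℝ) * L else L with hF
  have hn' : (4 : ℝ) ≤ n := by exact_mod_cast hn
  have hLK : K ≤ L := by
    have := abs_nonneg D
    linarith
  have hF1 : F 1 ≤ -K := by
    simp only [hF, if_true]
    have h1 : D ≤ |D| := le_abs_self D
    have h2 : (1 : ℝ) * L ≤ (n - 3 : ℝ) * L := by
      apply mul_le_mul_of_nonneg_right
      · linarith
      · linarith
    linarith
  have hrs : ∀ j, ∃ r s : ℝ, j < n → (s * r = d j ∧ r + κ * s = F j) := by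
    intro j
    by_cases hj : j < n
    · have h1 : F j ≠ 0 ∧ 4 * (κ * d j) ≤ (F j) ^ 2 := by
        have h2 := hKj j hj
        by_cases hj1 : j = 1
        · subst hj1
          constructor
          · linarith
          · nlinarith
        · have : F j = L := by simp [hF, hj1]
          rw [this]
          constructor
          · linarith
          · nlinarith
      obtain ⟨r, s, h⟩ := root κ (d j) (F j) h1.1 h1.2
      exact ⟨r, s, fun _ => h⟩
    · exact ⟨0, 0, fun h => absurd h hj⟩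
  choose r s hrs using hrs
  refine ⟨fun i => ∑ j ∈ Finset.Ico 1 i, s j, fun i => b 0 + ∑ j ∈ Finset.Ico 1 i, r j, by simp, ?_, ?_⟩
  · have h1 : ∑ j ∈ Finset.Ico 1 (n - 1), (r j + κ * s j) = ∑ j ∈ Finset.Ico 1 (n - 1), F j := by
      apply Finset.sum_congr rfl
      intro j hj
      rw [Finset.mem_Ico] at hj
      exact (hrs j (by omega)).2
    have h2 : ∑ j ∈ Finset.Ico 1 (n - 1), F j = D := by
      rw [Finset.sum_eq_sum_Ico_succ_bot (by omega)]
      have h3 : ∑ k ∈ Finset.Ico (1 + 1) (n - 1), F k = ∑ k ∈ Finset.Ico (1 + 1) (n - 1), L := by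
        apply Finset.sum_congr rfl
        intro j hj
        rw [Finset.mem_Ico] at hj
        simp only [hF]
        rw [if_neg (by omega)]
      rw [h3, Finset.sum_const, Nat.card_Ico, nsmul_eq_mul]
      have h4 : ((n - 1 - (1 + 1) : ℕ) : ℝ) = (n : ℝ) - 3 := by
        rw [show n - 1 - (1 + 1) = n - 3 by omega, Nat.cast_sub (by omega)]
        norm_num
      rw [h4]
      simp only [hF, if_true]
      ring
    rw [Finset.sum_add_distrib, ← Finset.mul_sum] at h1
    simp only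
    linarith
  · intro i h1 h2
    simp only
    rw [Finset.sum_Ico_succ_top h1, Finset.sum_Ico_succ_top h1]
    have : s i * r i = (a i + a (i + 1)) / 2 - b i := (hrs i (by omega)).1
    rw [← this]
    ring

theorem rank_le_four {n : ℕ} (X : Matrix (Fin n) (Fin 4) ℝ) (Y : Matrix (Fin 4) (Fin n) ℝ) : (X * Y).rank ≤ 4 := by
  have h1 := Matrix.rank_mul_le_left X Y
  have h2 := X.rank_le_card_width
  simpa using h1.trans h2

theorem exists_completion {n : ℕ} (hn : 3 ≤ n) (m : loopedCycle n → ℝ) :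
    ∃ A : Matrix (Fin n) (Fin n) ℝ, IsCompletion m A ∧ A.rank ≤ 4 := by
  classical
  rcases Nat.lt_or_ge n 4 with h4 | h4
  · refine ⟨fun i j => if h : s(i, j) ∈ loopedCycle n then m ⟨s(i, j), h⟩ else 0, ⟨?_, ?_⟩, ?_⟩
    · ext i j
      rw [Matrix.transpose_apply]
      have : s(j, i) = s(i, j) := Sym2.eq_swap
      simp only [this]
    · intro i j h
      exact dif_pos h
    · refine (Matrix.rank_le_card_width _).trans ?_
      simp
      omega
  · have hpos : 0 < n := by omega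
    have hloop : ∀ i : Fin n, s(i, i) ∈ loopedCycle n := fun i => ⟨i, i, rfl, Or.inl rfl⟩
    have hedge : ∀ i : Fin n, s(i, ⟨(i.1 + 1) % n, Nat.mod_lt _ hpos⟩) ∈ loopedCycle n :=
      fun i => ⟨i, _, rfl, Or.inr rfl⟩
    set a : ℕ → ℝ := fun i => if h : i < n then m ⟨s(⟨i, h⟩, ⟨i, h⟩), hloop _⟩ else 0 with ha
    set b : ℕ → ℝ := fun i => if h : i < n then m ⟨_, hedge ⟨i, h⟩⟩ else 0 with hb
    obtain ⟨x, y, h0, h1, h2⟩ := scalar n h4 a b
    set X : Matrix (Fin n) (Fin 4) ℝ := fun i =>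
      if i.1 = 0 then ![1, a 0 / 2, 0, 0] else ![x i, y i, 1, a i / 2 - x i * y i] with hX
    set Y : Matrix (Fin 4) (Fin n) ℝ := fun k i =>
      if i.1 = 0 then (![a 0 / 2, 1, 0, 0] : Fin 4 → ℝ) k else (![y i, x i, a i / 2 - x i * y i, 1] : Fin 4 → ℝ) k with hY
    have hAij : ∀ i j, (X * Y) i j = X i 0 * X j 1 + X i 1 * X j 0 + X i 2 * X j 3 + X i 3 * X j 2 := by
      intro i j
      rw [Matrix.mul_apply, Fin.sum_univ_four]
      have e0 : Y 0 j = X j 1 := by
        simp only [hX, hY]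
        split_ifs <;> rfl
      have e1 : Y 1 j = X j 0 := by
        simp only [hX, hY]
        split_ifs <;> rfl
      have e2 : Y 2 j = X j 3 := by
        simp only [hX, hY]
        split_ifs <;> rfl
      have e3 : Y 3 j = X j 2 := by
        simp only [hX, hY]
        split_ifs <;> rfl
      rw [e0, e1, e2, e3]
    have hX0 : ∀ i : Fin n, i.1 = 0 → X i 0 = 1 ∧ X i 1 = a 0 / 2 ∧ X i 2 = 0 ∧ X i 3 = 0 := by
      intro i hi
      simp only [hX, if_pos hi]
      exact ⟨rfl, rfl, rfl, rfl⟩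
    have hXi : ∀ i : Fin n, i.1 ≠ 0 → X i 0 = x i ∧ X i 1 = y i ∧ X i 2 = 1 ∧ X i 3 = a i / 2 - x i * y i := by
      intro i hi
      simp only [hX, if_neg hi]
      exact ⟨rfl, rfl, rfl, rfl⟩
    have hsymm : ∀ i j, (X * Y) i j = (X * Y) j i := by
      intro i j
      rw [hAij, hAij]; ring
    have hdiag : ∀ i : Fin n, (X * Y) i i = m ⟨s(i, i), hloop i⟩ := by
      intro i
      have hai : a i.1 = m ⟨s(i, i), hloop i⟩ := by
        simp only [ha]
        rw [dif_pos i.2]
      rw [← hai, hAij]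
      by_cases hi : i.1 = 0
      · obtain ⟨g0, g1, g2, g3⟩ := hX0 i hi
        rw [g0, g1, g2, g3, hi]; ring
      · obtain ⟨g0, g1, g2, g3⟩ := hXi i hi
        rw [g0, g1, g2, g3]; ring
    have hoff : ∀ i : Fin n, (X * Y) i ⟨(i.1 + 1) % n, Nat.mod_lt _ hpos⟩ = m ⟨_, hedge i⟩ := by
      intro i
      have hbi : b i.1 = m ⟨_, hedge i⟩ := by
        simp only [hb]
        rw [dif_pos i.2]
      rw [← hbi, hAij]
      rcases Nat.lt_or_ge (i.1 + 1) n with hlt | hge
      · have hmod : (i.1 + 1) % n = i.1 + 1 := Nat.mod_eq_of_lt hlt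
        obtain ⟨g0, g1, g2, g3⟩ := hXi ⟨(i.1 + 1) % n, Nat.mod_lt _ hpos⟩ (by simp only [hmod]; omega)
        rw [g0, g1, g2, g3]
        simp only [hmod]
        by_cases hi : i.1 = 0
        · obtain ⟨f0, f1, f2, f3⟩ := hX0 i hi
          rw [f0, f1, f2, f3, hi, ← h0]; ring
        · obtain ⟨f0, f1, f2, f3⟩ := hXi i hi
          rw [f0, f1, f2, f3]
          have := h2 i.1 (by omega) hlt
          linarith
      · have hi : i.1 = n - 1 := by omega
        have hmod : (i.1 + 1) % n = 0 := by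
          rw [hi, Nat.sub_add_cancel (by omega)]
          exact Nat.mod_self n
        obtain ⟨g0, g1, g2, g3⟩ := hX0 ⟨(i.1 + 1) % n, Nat.mod_lt _ hpos⟩ hmod
        obtain ⟨f0, f1, f2, f3⟩ := hXi i (by omega)
        rw [g0, g1, g2, g3, f0, f1, f2, f3, hi, ← h1]; ring
    refine ⟨X * Y, ⟨?_, ?_⟩, rank_le_four X Y⟩
    · ext i j
      rw [Matrix.transpose_apply]
      exact hsymm j i
    · intro i j h
      obtain ⟨k, l, hkl, h5⟩ := h
      have hcase : ∀ k l : Fin n, (k = l ∨ l.1 = (k.1 + 1) % n) → ∀ hmem : s(k, l) ∈ loopedCycle n,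
          (X * Y) k l = m ⟨s(k, l), hmem⟩ := by
        intro k l h6 hmem
        rcases h6 with rfl | h6
        · exact hdiag k
        · have : l = ⟨(k.1 + 1) % n, Nat.mod_lt _ hpos⟩ := Fin.ext h6
          subst this
          exact hoff k
      have hmem' : s(k, l) ∈ loopedCycle n := ⟨k, l, rfl, h5⟩
      have h7 := hcase k l h5 hmem'
      rw [Sym2.eq_iff] at hkl
      rcases hkl with ⟨rfl, rfl⟩ | ⟨rfl, rfl⟩
      · exact h7
      · rw [hsymm, h7]
        congr 2
        exact Sym2.eq_swap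

theorem minCompletionRank_le {n : ℕ} (hn : 3 ≤ n) (m : loopedCycle n → ℝ) : minCompletionRank m ≤ 4 := by
  obtain ⟨A, hA, hr⟩ := exists_completion hn m
  have h1 : minCompletionRank m ≤ A.rank := Nat.sInf_le ⟨A, hA, rfl⟩
  exact h1.trans hr

/-- For every `n ≥ 3` every partial matrix on the looped cycle has a completion of rank at most
four; so the maximum typical rank of a looped cycle is never five. -/
theorem result : ∀ n : ℕ, 3 ≤ n →
    (∀ m : loopedCycle n → ℝ, minCompletionRank m ≤ 4) ∧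
    ¬ IsGreatest {r : ℕ | IsTypicalRank (loopedCycle n) r} 5 := by
  intro n hn
  refine ⟨minCompletionRank_le hn, fun h => ?_⟩
  obtain ⟨m, hm⟩ := h.1
  have h1 := interior_subset hm
  have h2 := minCompletionRank_le hn m
  simp only [Set.mem_ofPred_eq] at h1
  omega

end Pool.Agent.Results.MP_541c26_co.LoopedCycles
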